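import Pool.Agent.X220.AF.Fin

/-!
# The rank part of the Birch and Swinnerton-Dyer conjecture for a positive proportion of the abelian
# number fields with `r` generators of exponent `l ^ n`, for several elliptic curves at the same time

`E_i : y² = x³ + a_i x + b_i` (`i = 1, …, m`) are elliptic curves over `ℚ` with `L(E_i, 1) ≠ 0`, given
with their newforms, `l` is a prime and `n`, `r` are integers.  A prime `q` is admissible if `q ∤ 2Δ_i`
and `l ∤ #E_i(ℤ/q)` for all `i`.  Let `H` be a group of Dirichlet characters of order dividing `l ^ n` and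
of squarefree conductors composed of admissible primes.  Every `r`-tuple `c` of elements of `H` gives an
abelian number field `ℚ(c)`, the field attached to the group of characters generated by `c`.

Theorem.  There is a number `V`, which depends on the curves and on `l`, `n`, `r` but NOT on `H`, such that
for every `H` there are at most `2 ^ V` tuples `k` (called corrections) such that for every tuple `c`
at least one of the fields `F = ℚ(c k)` is good: for all its subfields `F` and all `i` the function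
`L(E_i/F, s)` is entire and `L(E_i/F, 1) ≠ 0`.  In particular, if `H` is finite (for instance if it
consists of the characters with admissible conductor all whose prime divisors are at most `X`), at
least the proportion `2 ^ (-V)` of the `r`-tuples is good, uniformly in `H`.

By Kato's theorem (not used in the proofs) the groups `E_i(F)` are finite for these `F`: the rank part of
the conjecture holds, both sides being zero.  For `l = 2`, if the discriminants of the `E_i` are negative,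
their 2-Selmer groups over `ℚ` are trivial (`E_i(ℚ)` finite of odd order, `Ш(E_i/ℚ)[2] = 0`) and the
primes dividing `2Δ_i` split completely in the fields (`χ(p) = 1` for `χ ∈ H`), the finiteness of `E_i(F)`
is proved here, by 2-descent, and so is the equality of the rank and of the order of vanishing.

The nonvanishing is the final theorem `Pool.Agent.Y18.LP.fields` of the library (helper18, not handed in
before); the algebraic part is the descent of the file `TwoPartLifting` of problem `MP_9ab903_nt` and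
the comparison of the fields (`Pool.Agent.X220.AF`).
-/

set_option autoImplicit false

open Complex UpperHalfPlane MatrixGroups CongruenceSubgroup NumberField IsDedekindDomain

namespace Pool.Agent.Results.MP_cd906c_nt.AbelianFieldsProportion

/-- `N_p`: the number of pairs `(x, y) ∈ (ℤ/p)²` with `y² = x³ + a x + b`. -/
noncomputable def pointCount (a b : ℤ) (p : ℕ) : ℕ :=
  Nat.card {q : ZMod p × ZMod p // q.2 ^ 2 = q.1 ^ 3 + (a : ZMod p) * q.1 + (b : ZMod p)}

/-- `p` is a prime not dividing `2 Δ`, `Δ = -4 a³ - 27 b²`. -/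
def GoodPrime (a b : ℤ) (p : ℕ) : Prop :=
  p.Prime ∧ ¬ ((p : ℤ) ∣ 2 * (-4 * a ^ 3 - 27 * b ^ 2))

open Classical in
/-- `L(E, 1) ≠ 0` for `E : y² = x³ + a x + b`: there is an entire function `F` which for
`Re s > 3/2` is the incomplete L-series `∏_{p ∤ 2Δ} (1 - a_p p^{-s} + p^{1-2s})⁻¹`, `a_p = p - N_p`,
of `E` over `ℚ`, and `F(1) ≠ 0`. -/
def AnalyticRankZero (a b : ℤ) : Prop :=
  ∃ F : ℂ → ℂ, (Differentiable ℂ F ∧ ∀ s : ℂ, (3 : ℝ) / 2 < s.re →
    HasProd (fun p : ℕ => if GoodPrime a b p then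
      (1 - ((p : ℂ) - (pointCount a b p : ℂ)) * (p : ℂ) ^ (-s) + (p : ℂ) ^ (1 - 2 * s))⁻¹ else 1)
      (F s)) ∧ F 1 ≠ 0

/-- `q` is a prime, `q ∤ 2 Δ`, and `l` does not divide the number `N_q + 1` of the points of `E` over
`ℤ/q` (with the point at infinity). -/
def Admissible (a b : ℤ) (l q : ℕ) : Prop := GoodPrime a b q ∧ ¬ l ∣ pointCount a b q + 1

/-- The families `c = (c_q)` of characters `c_q` of the groups `(ℤ/q)ˣ`.  The family with `c_q = 1`
except for the primes `q` of a finite set stands for the Dirichlet character `χ_c = ∏ c_q` of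
squarefree conductor; this is an isomorphism of groups. -/
abbrev Fam : Type := (q : ℕ) → (ZMod q)ˣ →* ℂˣ

open Classical in
/-- The set of the `q` with `c_q ≠ 1` (if it is finite). -/
noncomputable def supp (c : Fam) : Finset ℕ :=
  if h : {q | c q ≠ 1}.Finite then h.toFinset else ∅

/-- The conductor of `χ_c`. -/
noncomputable def conductor (c : Fam) : ℕ := ∏ q ∈ supp c, q

/-- The value `χ_c(m)`. -/
noncomputable def value (c : Fam) (m : ℕ) : ℂ :=
  ∏ q ∈ supp c, if h : m.Coprime q then (c q (ZMod.unitOfCoprime m h) : ℂ) else 0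

open Classical in
/-- The Gaussian period `∑ exp(2 π i u / M)`, `0 ≤ u < M`, `χ_c(u) = 1`, where `M` is the conductor of
`χ_c`.  It generates the cyclic extension of `ℚ` attached to `χ_c` (the subfield of `ℚ(exp(2 π i / M))`
fixed by the kernel of `χ_c`; recall that `M` is squarefree). -/
noncomputable def period (c : Fam) : ℂ :=
  ∑ u ∈ (Finset.range (conductor c)).filter (fun u => value c u = 1),
    Complex.exp (2 * Real.pi * Complex.I / (conductor c : ℕ)) ^ u

/-- `H` is a group of Dirichlet characters of order dividing `l ^ n` and of squarefree conductors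
composed of primes admissible for all the curves. -/
structure IsCharGroup {m : ℕ} (a b : Fin m → ℤ) (l n : ℕ) (H : Subgroup Fam) : Prop where
  pow : ∀ c ∈ H, c ^ (l ^ n) = 1
  finite : ∀ c ∈ H, {q | c q ≠ 1}.Finite
  admissible : ∀ c ∈ H, ∀ q, c q ≠ 1 → q.Prime ∧ ∀ i, Admissible (a i) (b i) l q

/-- The `n`-th Fourier coefficient of `f`. -/
noncomputable def coef {N : ℕ} (f : CuspForm (Gamma0 N : Subgroup (GL (Fin 2) ℝ)) 2) (n : ℕ) : ℂ :=
  (qExpansion 1 f).coeff n

/-- `f ∈ S_2(Γ₀(N))` is the newform of the elliptic curve `E : y² = x³ + a x + b`, with its standard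
properties: the Fourier coefficients `c(n)` of `f` are real with `c(1) = 1`, they satisfy the Hecke
relations `c(mn) = c(m) c(n)` for coprime `m`, `n` and `c(p^(j+2)) = c(p) c(p^(j+1)) - p c(p^j)`
(without the last term if `p ∣ N`) and the bounds `|c(p)| ≤ 2√p` for `p ∤ N`, `|c(p)| ≤ 1` for
`p ∣ N`; `f` is an eigenfunction of the Fricke involution: `f(-1/(Nτ)) = -w N τ² f(τ)` with `w = ±1`;
for all primes `p ∤ 2Δ` one has `p ∤ N` and `c(p) = a_p(E)`.  (Every elliptic curve over `ℚ` has such a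
form by the modularity theorem.) -/
structure IsFormOf (a b : ℤ) (N : ℕ) (f : CuspForm (Gamma0 N : Subgroup (GL (Fin 2) ℝ)) 2) :
    Prop where
  one : coef f 1 = 1
  real : ∀ n, (coef f n).im = 0
  mul : ∀ m n : ℕ, Nat.Coprime m n → coef f (m * n) = coef f m * coef f n
  pow : ∀ p j : ℕ, p.Prime → coef f (p ^ (j + 2)) = coef f p * coef f (p ^ (j + 1)) -
      (if p ∣ N then 0 else (p : ℂ) * coef f (p ^ j))
  good : ∀ p : ℕ, p.Prime → ¬ p ∣ N → ‖coef f p‖ ≤ 2 * Real.sqrt p
  bad : ∀ p : ℕ, p.Prime → p ∣ N → ‖coef f p‖ ≤ 1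
  fricke : ∃ w : ℝ, (w = 1 ∨ w = -1) ∧ ∀ τ τ' : ℍ, (τ' : ℂ) * ((N : ℂ) * (τ : ℂ)) = -1 →
    f τ' = -(w : ℂ) * (N : ℂ) * (τ : ℂ) ^ 2 * f τ
  points : ∀ p : ℕ, GoodPrime a b p → ¬ p ∣ N ∧ coef f p = (p : ℂ) - (pointCount a b p : ℂ)

/-- `pw t u n = α ^ n + β ^ n`, where `α`, `β` are the roots of `X² - t X + u`. -/
noncomputable def pw (t u : ℂ) : ℕ → ℂ
  | 0 => 2
  | 1 => t
  | n + 2 => t * pw t u (n + 1) - u * pw t u n

section
variable {F : Type} [Field F] [NumberField F]

/-- The number `a_v` of `E : y² = x³ + a x + b` at a finite place `v` of `F`: `Nv` minus the number of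
affine solutions `(x, y)` of the equation over the residue field `𝓞 F / v`. -/
noncomputable def av (a b : ℤ) (v : HeightOneSpectrum (𝓞 F)) : ℤ :=
  ((Ideal.absNorm v.asIdeal : ℕ) : ℤ) -
    ((Nat.card {x : (𝓞 F ⧸ v.asIdeal) × (𝓞 F ⧸ v.asIdeal) //
      x.2 ^ 2 = x.1 ^ 3 + (a : 𝓞 F ⧸ v.asIdeal) * x.1 + (b : 𝓞 F ⧸ v.asIdeal)} : ℕ) : ℤ)

open Classical in
/-- The Euler factor of `L(E/F, s)` at the finite place `v` of `F`.  If `v ∤ 2 Δ`, it is
`(1 - a_v (Nv)^(-s) + (Nv)^(1-2s))⁻¹`.  If `v ∣ 2 Δ` and `Nv = p ^ d` with `p` prime, it is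
`(1 - (α^d + β^d) (Nv)^(-s) + (Nv)^(1-2s))⁻¹` for `p ∤ N`, where `α`, `β` are the roots of
`X² - c(p) X + p`, and `(1 - c(p)^d (Nv)^(-s))⁻¹` for `p ∣ N`.  (The primes `p ∣ 2 Δ` will be
unramified in `F`, so that this is the Hasse-Weil factor.) -/
noncomputable def factor (a b : ℤ) {N : ℕ} (f : CuspForm (Gamma0 N : Subgroup (GL (Fin 2) ℝ)) 2)
    (s : ℂ) (v : HeightOneSpectrum (𝓞 F)) : ℂ :=
  if ((2 * (4 * a ^ 3 + 27 * b ^ 2) : ℤ) : 𝓞 F) ∈ v.asIdeal then
    (1 - pw (coef f (Ideal.absNorm v.asIdeal).minFac)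
          (if (Ideal.absNorm v.asIdeal).minFac ∣ N then 0 else ((Ideal.absNorm v.asIdeal).minFac : ℂ))
          ((Ideal.absNorm v.asIdeal).factorization (Ideal.absNorm v.asIdeal).minFac)
          * ((Ideal.absNorm v.asIdeal : ℕ) : ℂ) ^ (-s)
      + (if (Ideal.absNorm v.asIdeal).minFac ∣ N then (0 : ℂ) else
          ((Ideal.absNorm v.asIdeal : ℕ) : ℂ) ^ (1 - 2 * s)))⁻¹
  else
    (1 - ((av a b v : ℤ) : ℂ) * ((Ideal.absNorm v.asIdeal : ℕ) : ℂ) ^ (-s)
      + ((Ideal.absNorm v.asIdeal : ℕ) : ℂ) ^ (1 - 2 * s))⁻¹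

end

/-- `L(E/F, s)` is entire and `L(E/F, 1) ≠ 0`, for the number field `F ⊂ ℂ` and the elliptic curve
`E : y² = x³ + a x + b` with newform `f`: there is an entire function `G` which for `Re s > 3/2` is the
Euler product of `E` over all finite places of `F`, and `G(1) ≠ 0`. -/
def NonvanishingOver (F : IntermediateField ℚ ℂ) [NumberField F] (a b : ℤ) {N : ℕ}
    (f : CuspForm (Gamma0 N : Subgroup (GL (Fin 2) ℝ)) 2) : Prop :=
  ∃ G : ℂ → ℂ, Differentiable ℂ G ∧
    (∀ s : ℂ, 3 / 2 < s.re → HasProd (fun v : HeightOneSpectrum (𝓞 F) => factor a b f s v) (G s)) ∧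
    G 1 ≠ 0

/-- The number field `ℚ(c) ⊂ ℂ` attached to the tuple `c = (c_1, …, c_r)` of characters: it is generated
by the Gaussian periods of the products `∏ c_j ^ (J_j)`, that is, of all the characters of the group
generated by the `c_j`. -/
noncomputable def fieldOf {r : ℕ} (c : Fin r → Fam) : IntermediateField ℚ ℂ :=
  IntermediateField.adjoin ℚ {x : ℂ | ∃ J : Fin r → ℕ, x = period (∏ j, c j ^ J j)}

/-- For all number fields `F ⊂ ℚ(c)` and all `i` the function `L(E_i/F, s)` is entire and does not vanish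
at `s = 1`. -/
def Good {m : ℕ} (a b : Fin m → ℤ) {N : Fin m → ℕ}
    (f : (i : Fin m) → CuspForm (Gamma0 (N i) : Subgroup (GL (Fin 2) ℝ)) 2) {r : ℕ}
    (c : Fin r → Fam) : Prop :=
  ∀ (F : IntermediateField ℚ ℂ) [NumberField F], F ≤ fieldOf c →
    ∀ i, NonvanishingOver F (a i) (b i) (f i)

/-- The curve `y² = x³ + a x + b` over the ring `R`. -/
abbrev curve (a b : ℤ) (R : Type) [CommRing R] : WeierstrassCurve R :=
  (⟨0, 0, 0, a, b⟩ : WeierstrassCurve ℤ).map (Int.castRingHom R)

open Classical in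
/-- The rank of `E(F)`. -/
noncomputable def rank (a b : ℤ) (F : Type) [Field F] : ℕ :=
  Module.finrank ℤ (curve a b F).toAffine.Point

open Classical in
/-- The discriminant `-16 (4 a³ + 27 b²)` of `E` is negative and the 2-Selmer group of `E` over `ℚ` is
trivial: `E(ℚ)` is finite of odd order and `Ш(E/ℚ)` has no element of order two. -/
structure TrivialTwoSelmer (a b : ℤ) : Prop where
  neg : 0 < 4 * a ^ 3 + 27 * b ^ 2
  sha : ∀ s : Pool.Agent.TH841.NF.D.Sha (curve a b ℚ), 2 • s = 0 → s = 0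
  fin : Finite (curve a b ℚ).toAffine.Point
  odd : Odd (Nat.card (curve a b ℚ).toAffine.Point)

/-- The rank part of the conjecture for `E` over `F`, with both sides zero: `E(F)` is finite, `L(E/F, s)`
is entire, and its order of vanishing at `s = 1` and the rank of `E(F)` are zero. -/
def RankPart (F : IntermediateField ℚ ℂ) [NumberField F] (a b : ℤ) {N : ℕ}
    (f : CuspForm (Gamma0 N : Subgroup (GL (Fin 2) ℝ)) 2) : Prop :=
  Finite (curve a b F).toAffine.Point ∧ ∃ G : ℂ → ℂ, Differentiable ℂ G ∧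
    (∀ s : ℂ, 3 / 2 < s.re → HasProd (fun v : HeightOneSpectrum (𝓞 F) => factor a b f s v) (G s)) ∧
    analyticOrderAt G 1 = (rank a b F : ℕ∞) ∧ rank a b F = 0

theorem pw_eq (t u : ℂ) : ∀ n : ℕ, pw t u n = W165.CE.pw t u n
  | 0 => rfl
  | 1 => rfl
  | n + 2 => by rw [pw, W165.CE.pw, pw_eq t u (n + 1), pw_eq t u n]

theorem factor_eq {F : Type} [Field F] [NumberField F] (a b : ℤ) {N : ℕ}
    (f : CuspForm (Gamma0 N : Subgroup (GL (Fin 2) ℝ)) 2) (s : ℂ) (v : HeightOneSpectrum (𝓞 F)) :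
    factor a b f s v = W165.CE.fac a b N (Pool.Agent.Y18.BSD.co f) s v := by
  unfold factor W165.CE.fac
  rw [pw_eq]
  rfl

theorem nonvanishing_of {F : IntermediateField ℚ ℂ} [NumberField F] {a b : ℤ} {N : ℕ}
    {f : CuspForm (Gamma0 N : Subgroup (GL (Fin 2) ℝ)) 2} (h : Pool.Agent.Y18.NF.RZ F a b f) :
    NonvanishingOver F a b f := by
  obtain ⟨G, h1, h2, h3⟩ := h
  refine ⟨G, h1, fun s hs => ?_, h3⟩
  refine (congrArg (fun g => HasProd g (G s)) (funext fun v => ?_)).mp (h2 s hs)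
  exact (factor_eq a b f s v).symm

theorem rank_zero {a b : ℤ} {F : Type} [Field F] (h : Finite (curve a b F).toAffine.Point) :
    rank a b F = 0 := by
  classical
  unfold rank
  apply Module.IsTorsion.finrank_eq_zero
  intro P
  refine ⟨⟨(Nat.card (curve a b F).toAffine.Point : ℤ), ?_⟩, ?_⟩
  · rw [mem_nonZeroDivisors_iff_ne_zero]
    exact_mod_cast Nat.card_pos.ne'
  · show (Nat.card (curve a b F).toAffine.Point : ℤ) • P = 0
    rw [natCast_zsmul]
    exact card_nsmul_eq_zero'

/-- Counting with corrections. -/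
theorem count {G : Type} [CommGroup G] (H : Subgroup G) [Finite H] {r : ℕ} (V : ℕ)
    (K : Finset (Fin r → G)) (hK1 : K.card ≤ 2 ^ V) (hK2 : ∀ k ∈ K, ∀ j, k j ∈ H)
    (P : (Fin r → G) → Prop)
    (h : ∀ c : Fin r → G, (∀ j, c j ∈ H) → ∃ k ∈ K, P (fun j => c j * k j)) :
    Nat.card (Fin r → H) ≤ 2 ^ V * Nat.card {c : Fin r → H // P (fun j => (c j : G))} := by
  classical
  choose! k hk1 hk2 using h
  let g : (Fin r → H) → K × {c : Fin r → H // P (fun j => (c j : G))} := fun c =>
    (⟨k (fun j => (c j : G)), hk1 _ fun j => (c j).2⟩,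
      ⟨fun j => c j * ⟨k (fun j => (c j : G)) j, hK2 _ (hk1 _ fun j => (c j).2) j⟩,
        hk2 (fun j => (c j : G)) fun j => (c j).2⟩)
  have hg : Function.Injective g := by
    intro c c' h
    have h1 : k (fun j => (c j : G)) = k (fun j => (c' j : G)) :=
      congrArg (fun x => (x.1 : Fin r → G)) h
    have h2 : (g c).2.1 = (g c').2.1 := congrArg (fun x => (x.2.1 : Fin r → H)) h
    funext j
    have h3 := congrFun h2 j
    have h4 : (c j : G) * k (fun j => (c j : G)) j =
        (c' j : G) * k (fun j => (c' j : G)) j := congrArg Subtype.val h3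
    rw [h1] at h4
    exact Subtype.ext (mul_right_cancel h4)
  have h5 := Nat.card_le_card_of_injective g hg
  rw [Nat.card_prod] at h5
  refine h5.trans (Nat.mul_le_mul_right _ ?_)
  rw [Nat.card_eq_fintype_card, Fintype.card_coe]
  exact hK1

theorem prod_mem' {G : Type} [CommGroup G] (H : Subgroup G) {r : ℕ} (c : Fin r → G)
    (hc : ∀ j, c j ∈ H) (J : Fin r → ℕ) : ∏ j, c j ^ J j ∈ H :=
  Subgroup.prod_mem H fun j _ => H.pow_mem (hc j) _

/-- The finiteness of the groups of points, for `l = 2`. -/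
theorem finite_points {a b : ℤ} (hT : TrivialTwoSelmer a b) {H : Subgroup Fam} {n r : ℕ}
    (hpow : ∀ c ∈ H, c ^ (2 ^ n) = 1) (hfin : ∀ c ∈ H, {q | c q ≠ 1}.Finite)
    (hadm : ∀ c ∈ H, ∀ q, c q ≠ 1 → q.Prime ∧ Admissible a b 2 q)
    (hsplit : ∀ c ∈ H, ∀ p : ℕ, p.Prime → (p : ℤ) ∣ 2 * (4 * a ^ 3 + 27 * b ^ 2) → value c p = 1)
    (c : Fin r → Fam) (hc : ∀ j, c j ∈ H) (F : IntermediateField ℚ ℂ) [NumberField F]
    (hF : F ≤ fieldOf c) : Finite (curve a b F).toAffine.Point := by
  refine Pool.Agent.X220.AF.alg (a := a) (b := b) ⟨hT.neg, hT.sha, hT.fin, hT.odd⟩ H hfin hadm n hpow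
    hsplit F (hF.trans ?_)
  refine IntermediateField.adjoin.mono ℚ _ _ ?_
  rintro x ⟨J, rfl⟩
  exact ⟨_, prod_mem' H c hc J, rfl⟩

/-- **Theorem.** Let `E_i : y² = x³ + a_i x + b_i`, `i = 1, …, m`, be elliptic curves over `ℚ` with newforms
`f_i` and `L(E_i, 1) ≠ 0`, let `l` be a prime and `n`, `r` integers.  There is a `V` such that the
following holds for every group `H` of Dirichlet characters of order dividing `l ^ n` and of squarefree
conductors composed of primes `q ∤ 2 Δ_i` with `l ∤ #E_i(ℤ/q)`.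
(1) There is a set `K` of at most `2 ^ V` tuples in `H ^ r` such that for every `c ∈ H ^ r` there is a `k`
in `K` such that `c k` is good: `L(E_i/F, s)` is entire with `L(E_i/F, 1) ≠ 0` for all `i` and all number
fields `F ⊂ ℚ(c k)`.
(2) If `H` is finite, at least the proportion `2 ^ (-V)` of the tuples in `H ^ r` is good.
(3) If `l = 2`, the 2-Selmer groups of the `E_i` over `ℚ` are trivial, `Δ_i < 0`, and `χ(p) = 1` for all
`χ ∈ H` and all primes `p ∣ 2 Δ_i`, then for all good tuples `c`, all number fields `F ⊂ ℚ(c)` and all `i`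
the rank part of the Birch and Swinnerton-Dyer conjecture holds for `E_i` over `F`, with order and rank
zero. -/
theorem result (m : ℕ) (a b : Fin m → ℤ) (hΔ : ∀ i, 4 * a i ^ 3 + 27 * b i ^ 2 ≠ 0)
    (N : Fin m → ℕ) (hN : ∀ i, N i ≠ 0)
    (f : (i : Fin m) → CuspForm (Gamma0 (N i) : Subgroup (GL (Fin 2) ℝ)) 2)
    (hf : ∀ i, IsFormOf (a i) (b i) (N i) (f i)) (h0 : ∀ i, AnalyticRankZero (a i) (b i))
    (l n r : ℕ) (hl : l.Prime) :
    ∃ V : ℕ, ∀ H : Subgroup Fam, IsCharGroup a b l n H →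
      (∃ K : Finset (Fin r → Fam), K.card ≤ 2 ^ V ∧ (∀ k ∈ K, ∀ j, k j ∈ H) ∧
        ∀ c : Fin r → Fam, (∀ j, c j ∈ H) → ∃ k ∈ K, Good a b f (fun j => c j * k j)) ∧
      ((H : Set Fam).Finite → Nat.card (Fin r → H) ≤
        2 ^ V * Nat.card {c : Fin r → H // Good a b f (fun j => (c j : Fam))}) ∧
      (l = 2 → (∀ i, TrivialTwoSelmer (a i) (b i)) →
        (∀ c ∈ H, ∀ p : ℕ, p.Prime → ∀ i, (p : ℤ) ∣ 2 * (4 * a i ^ 3 + 27 * b i ^ 2) →
          value c p = 1) →
        ∀ c : Fin r → Fam, (∀ j, c j ∈ H) → Good a b f c →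
          ∀ (F : IntermediateField ℚ ℂ) [NumberField F], F ≤ fieldOf c →
            ∀ i, RankPart F (a i) (b i) (f i)) := by
  classical
  have : ∀ i, NeZero (N i) := fun i => ⟨hN i⟩
  obtain ⟨V, hV⟩ := Pool.Agent.Y18.LP.fields m a b hΔ N f
    (fun i => ⟨(hf i).one, (hf i).real, (hf i).mul, (hf i).pow, (hf i).good, (hf i).bad,
      (hf i).fricke, (hf i).points⟩) h0 l n r hl
  refine ⟨V, fun H hH => ?_⟩
  obtain ⟨K, hK1, hK2, hK3⟩ := hV H ⟨hH.pow, hH.finite, hH.admissible⟩
  have key : ∀ c : Fin r → Fam, (∀ j, c j ∈ H) → ∃ k ∈ K, Good a b f (fun j => c j * k j) := by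
    intro c hc
    obtain ⟨k, hk, h⟩ := hK3 c hc
    exact ⟨k, hk, fun F _ hF i => nonvanishing_of (h F hF i)⟩
  refine ⟨⟨K, hK1, hK2, key⟩, ?_, ?_⟩
  · intro hfin
    have hfH : Finite H := hfin.to_subtype
    exact count H V K hK1 hK2 (Good a b f) key
  · rintro rfl hT hsplit c hc hgood F _ hF i
    have hpts := finite_points (hT i) hH.pow hH.finite
      (fun c hc q hq => ⟨(hH.admissible c hc q hq).1, (hH.admissible c hc q hq).2 i⟩)
      (fun c hc p hp h => hsplit c hc p hp i h) c hc F hF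
    obtain ⟨G, h1, h2, h3⟩ := hgood F hF i
    refine ⟨hpts, G, h1, h2, ?_, rank_zero hpts⟩
    rw [rank_zero hpts, (h1.analyticAt 1).analyticOrderAt_eq_zero.2 h3]
    rfl

end Pool.Agent.Results.MP_cd906c_nt.AbelianFieldsProportion
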