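import Pool.Agent.X309.TwPack
import Pool.Agent.X309.DG
import Pool.Agent.X309.QT
import Pool.Agent.W165.CE.Euler

/-!
# The analytic rank of elliptic curves over almost all cyclotomic fields

Let `E / ℚ` be an elliptic curve and let `E^D` be its quadratic twist by `D`, with the quadratic
character `η` of conductor `m` of the field `ℚ(√D)`, `m` prime to the level `N` of `E` (`D = 1`,
`m = 1` gives `E`).

* For all `ε > 0`, for all `q ≤ X` prime to `N m` but at most `C X exp(-c (log X)^(1/3))` of them, the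
  order of vanishing of the Hasse-Weil `L`-function `L(E^D/ℚ(ζ_q), s)` at `s = 1` is at most
  `C q^(3/4 + ε)`.
* The sum over all `q ≤ X` prime to `N m` of these orders is at most
  `C exp(-c (log X)^(1/3))` times the sum of the degrees of the fields.

(The trivial bound is `C q log q`.)  For primes `q` the bound `C q^(7/8 + ε)` is due to Chinta; for powers
`q` of odd primes the bound `C q^(3/4 + ε)` is `CyclotomicAnalyticRank` of `MP_32c55d_nt`.  The
exceptional `q` are those with a small Carmichael function: the proof uses characters of order at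
least `q^(3/4 + ε)`.

The analytic part (mean value of the central values over the conjugates of `χ`, Weil's bound for
Kloosterman sums) is taken from the starting modules of helper192 and others (`W192.CY`, `TH940`,
...), the Euler product over the primes of `ℚ(ζ_q)` from those of helper165 (`W165.CE`), the
count of the moduli with a small Carmichael function from `Y683.AA`.
-/

set_option autoImplicit false

open Complex NumberField IsDedekindDomain UpperHalfPlane MatrixGroups CongruenceSubgroup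

open Pool.Agent.X309.TwDefs

namespace Pool.Agent.Results.MP_cd906c_nt.AlmostAllCyclotomicFields

/-- `pw t u n = α ^ n + β ^ n`, where `α`, `β` are the roots of `X² - t X + u`. -/
noncomputable def pw (t u : ℂ) : ℕ → ℂ
  | 0 => 2
  | 1 => t
  | n + 2 => t * pw t u (n + 1) - u * pw t u n

section
variable {K : Type} [Field K] [NumberField K]

/-- The number `a_v` of `E : y² = x³ + a x + b` at a prime `v` of `K`: `Nv` minus the number of affine
solutions `(x, y)` of the equation over the residue field `𝓞 K / v`. -/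
noncomputable def av (a b : ℤ) (v : HeightOneSpectrum (𝓞 K)) : ℤ :=
  ((Ideal.absNorm v.asIdeal : ℕ) : ℤ) -
    ((Nat.card {x : (𝓞 K ⧸ v.asIdeal) × (𝓞 K ⧸ v.asIdeal) //
      x.2 ^ 2 = x.1 ^ 3 + (a : 𝓞 K ⧸ v.asIdeal) * x.1 + (b : 𝓞 K ⧸ v.asIdeal)} : ℕ) : ℤ)

open Classical in
/-- The local factor at the prime `v` of `K = ℚ(ζ_q)`, `q` prime to the level `N`, of the Hasse-Weil
`L`-function of `E : y² = x³ + a x + b` with the coefficients `c(p)` at the primes.  If
`v ∤ 2 (4a³ + 27b²)`, it is `(1 - a_v (Nv)^(-s) + (Nv)^(1-2s))⁻¹`.  If `v ∣ 2 (4a³ + 27b²)` and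
`Nv = p ^ d` with `p` prime, it is `(1 - (α^d + β^d) (Nv)^(-s) + (Nv)^(1-2s))⁻¹` for `p ∤ N`, where
`α`, `β` are the roots of `X² - c(p) X + p`, and `(1 - c(p)^d (Nv)^(-s))⁻¹` for `p ∣ N`. -/
noncomputable def factor (a b : ℤ) (N : ℕ) (c : ℕ → ℂ) (s : ℂ) (v : HeightOneSpectrum (𝓞 K)) : ℂ :=
  if ((2 * (4 * a ^ 3 + 27 * b ^ 2) : ℤ) : 𝓞 K) ∈ v.asIdeal then
    (1 - pw (c (Ideal.absNorm v.asIdeal).minFac)
          (if (Ideal.absNorm v.asIdeal).minFac ∣ N then 0 else ((Ideal.absNorm v.asIdeal).minFac : ℂ))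
          ((Ideal.absNorm v.asIdeal).factorization (Ideal.absNorm v.asIdeal).minFac)
          * ((Ideal.absNorm v.asIdeal : ℕ) : ℂ) ^ (-s)
      + (if (Ideal.absNorm v.asIdeal).minFac ∣ N then (0 : ℂ) else
          ((Ideal.absNorm v.asIdeal : ℕ) : ℂ) ^ (1 - 2 * s)))⁻¹
  else
    (1 - ((av a b v : ℤ) : ℂ) * ((Ideal.absNorm v.asIdeal : ℕ) : ℂ) ^ (-s)
      + ((Ideal.absNorm v.asIdeal : ℕ) : ℂ) ^ (1 - 2 * s))⁻¹

end

/-- `η` is the quadratic (or trivial) character of `ℚ(√D)`: `η² = 1`, and `η(p) = (D/p)`, in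
particular `p ∤ m`, for all primes `p ∤ 2D`. -/
structure IsQuadratic (E : TwistedCurve) (D : ℤ) : Prop where
  ne : D ≠ 0
  sq : E.η ^ 2 = 1
  eq : ∀ (p : ℕ) [Fact p.Prime], ¬ (p : ℤ) ∣ 2 * D →
    ¬ p ∣ E.m ∧ E.η (p : ZMod E.m) = ((legendreSym p D : ℤ) : ℂ)

/-- The local factor at the prime `v` of `K = ℚ(ζ_q)` of the quadratic twist
`E^D : y² = x³ + D² a x + D³ b`, whose coefficients at the primes `p` are `η(p) c(p)`. -/
noncomputable def twistedFactor (E : TwistedCurve) (D : ℤ) {K : Type} [Field K] [NumberField K]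
    (s : ℂ) (v : HeightOneSpectrum (𝓞 K)) : ℂ :=
  factor (D ^ 2 * E.a) (D ^ 3 * E.b) (E.N * E.m)
    (fun n => E.η (n : ZMod E.m) * coef E.f n) s v

theorem pw_eq_lib (t u : ℂ) : ∀ n : ℕ, pw t u n = W165.CE.pw t u n
  | 0 => rfl
  | 1 => rfl
  | n + 2 => by
    rw [pw, W165.CE.pw, pw_eq_lib t u (n + 1), pw_eq_lib t u n]

theorem factor_eq_lib (a b : ℤ) (N : ℕ) (c : ℕ → ℂ)
    {K : Type} [Field K] [NumberField K] (s : ℂ) (v : HeightOneSpectrum (𝓞 K)) :
    factor a b N c s v = W165.CE.fac a b N c s v := by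
  unfold factor W165.CE.fac
  rw [pw_eq_lib]
  rfl

/-- the square of the character -/
theorem eta_sq {E : TwistedCurve} (h : E.η ^ 2 = 1) {p : ℕ} (hp : p.Prime) (hm : ¬ p ∣ E.m) :
    E.η (p : ZMod E.m) ^ 2 = 1 := by
  have hu : IsUnit ((p : ℕ) : ZMod E.m) :=
    (ZMod.isUnit_iff_coprime p E.m).2 ((Nat.Prime.coprime_iff_not_dvd hp).2 hm)
  have h1 : (E.η ^ 2) (hu.unit : ZMod E.m) = 1 := by
    rw [h, MulChar.one_apply_coe]
  rw [MulChar.pow_apply_coe, IsUnit.unit_spec] at h1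
  exact h1

theorem eul_eq {E : TwistedCurve} (h : E.η ^ 2 = 1) {q : ℕ} (χ : DirichletCharacter ℂ q) (s : ℂ)
    (p : ℕ) (hp : p.Prime) :
    W165.CE.eul (E.N * E.m) (fun n => E.η (n : ZMod E.m) * coef E.f n) q χ s p =
      E.factor χ s p := by
  unfold W165.CE.eul TwistedCurve.factor
  have h1 : χ (p : ZMod q) * (E.η (p : ZMod E.m) * coef E.f p) =
      χ (p : ZMod q) * E.η (p : ZMod E.m) * coef E.f p := by ring
  have h2 : χ (p : ZMod q) ^ 2 *
      ((if p ∣ E.N * E.m then 0 else (p : ℂ)) * ((p : ℂ) ^ (-s)) ^ 2) =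
      (if p ∣ E.N then 0 else (χ (p : ZMod q) * E.η (p : ZMod E.m)) ^ 2 *
        (p : ℂ) ^ (1 - 2 * s)) := by
    rw [Pool.Agent.H82R3.EK.prime_cpow p hp.ne_zero s]
    by_cases hN : p ∣ E.N
    · rw [if_pos hN, if_pos (hN.mul_right _), zero_mul, mul_zero]
    · rw [if_neg hN]
      by_cases hm : p ∣ E.m
      · rw [if_pos (hm.mul_left _), zero_mul, mul_zero]
        have hnu : ¬ IsUnit ((p : ℕ) : ZMod E.m) := by
          rw [ZMod.isUnit_iff_coprime, Nat.Prime.coprime_iff_not_dvd hp]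
          exact fun h3 => h3 hm
        rw [MulChar.map_nonunit _ hnu]
        ring
      · rw [if_neg (fun h3 => ((Nat.Prime.dvd_mul hp).1 h3).elim hN hm), mul_pow,
          eta_sq h hp hm, mul_one]
  rw [h1, h2]

/-- The coefficients of `E^D`. -/
theorem coef_eq (E : TwistedCurve) (D : ℤ) (hD : IsQuadratic E D) (p : ℕ) (hp : p.Prime)
    (h : ¬ (p : ℤ) ∣ 2 * (4 * (D ^ 2 * E.a) ^ 3 + 27 * (D ^ 3 * E.b) ^ 2)) :
    ¬ p ∣ E.N * E.m ∧ E.η (p : ZMod E.m) * coef E.f p =
      ((W165.CE.ap0 (D ^ 2 * E.a) (D ^ 3 * E.b) p : ℤ) : ℂ) := by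
  have hF : Fact p.Prime := ⟨hp⟩
  have e : 2 * (4 * (D ^ 2 * E.a) ^ 3 + 27 * (D ^ 3 * E.b) ^ 2) =
      D ^ 6 * (2 * (4 * E.a ^ 3 + 27 * E.b ^ 2)) := by ring
  rw [e] at h
  have h2 : ¬ (p : ℤ) ∣ 2 * (4 * E.a ^ 3 + 27 * E.b ^ 2) := fun h1 => h (h1.mul_left _)
  have h3 : ¬ (p : ℤ) ∣ D := fun h1 => h ((h1.trans (dvd_pow_self D (by norm_num))).mul_right _)
  have hp2 : p ≠ 2 := by
    rintro rfl
    exact h2 (by exact_mod_cast dvd_mul_right 2 _)
  have h4 : ¬ (p : ℤ) ∣ 2 * D := by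
    intro h5
    rcases (Nat.prime_iff_prime_int.1 hp).dvd_mul.1 h5 with h6 | h6
    · have h7 : p ∣ 2 := by exact_mod_cast h6
      exact hp2 ((Nat.prime_dvd_prime_iff_eq hp Nat.prime_two).1 h7)
    · exact h3 h6
  obtain ⟨h5, h6⟩ := hD.eq p h4
  obtain ⟨h7, h8⟩ := E.isForm.points p hp h2
  refine ⟨fun h9 => ((Nat.Prime.dvd_mul hp).1 h9).elim h7 h5, ?_⟩
  have h9 := Pool.Agent.X309.QT.ap_twist hp hp2 E.a E.b D h3
  unfold W165.CE.ap0
  rw [h9, h6, h8]
  unfold ap
  push_cast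
  ring

/-- The general case. -/
theorem main (E : TwistedCurve) (D : ℤ) (hD : IsQuadratic E D) :
    ∃ Z : ℕ → ℂ → ℂ,
      (∀ q : ℕ, 1 ≤ q → Nat.Coprime q (E.N * E.m) → Differentiable ℂ (Z q) ∧
        analyticOrderAt (Z q) 1 ≠ ⊤ ∧
        ∀ (K : Type) [Field K] [NumberField K] [IsCyclotomicExtension {q} ℚ K] (s : ℂ),
          3 / 2 < s.re → HasProd (fun v : HeightOneSpectrum (𝓞 K) => twistedFactor E D s v)
            (Z q s)) ∧
      (∀ ε : ℝ, 0 < ε → ∃ C c : ℝ, 0 < C ∧ 0 < c ∧ ∀ X : ℕ, 1 ≤ X →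
        (({q : ℕ | 1 ≤ q ∧ q ≤ X ∧ Nat.Coprime q (E.N * E.m) ∧
          C * (q : ℝ) ^ (3 / 4 + ε) < analyticOrderNatAt (Z q) 1}.ncard : ℕ) : ℝ) ≤
          C * X * Real.exp (-c * (Real.log X) ^ ((1 : ℝ) / 3))) ∧
      ∃ C c : ℝ, 0 < C ∧ 0 < c ∧ ∀ X : ℕ, 1 ≤ X →
        ((∑ q ∈ (Finset.Icc 1 X).filter (fun q => Nat.Coprime q (E.N * E.m)),
          analyticOrderNatAt (Z q) 1 : ℕ) : ℝ) ≤
          C * Real.exp (-c * (Real.log X) ^ ((1 : ℝ) / 3)) *
            ((∑ q ∈ (Finset.Icc 1 X).filter (fun q => Nat.Coprime q (E.N * E.m)),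
              q.totient : ℕ) : ℝ) := by
  classical
  obtain ⟨K0, L, hL, hGH⟩ := core_tw E
  set M : ℕ := E.N * E.m with hM
  have hM1 : 1 ≤ M := Nat.one_le_iff_ne_zero.2 (mul_ne_zero E.N_ne E.m_ne)
  set G : (q : ℕ) → DirichletCharacter ℂ q → ℕ := fun q χ => analyticOrderNatAt (L q χ) 1 with hG
  have hE : 4 * (D ^ 2 * E.a) ^ 3 + 27 * (D ^ 3 * E.b) ^ 2 ≠ 0 := by
    have e : 4 * (D ^ 2 * E.a) ^ 3 + 27 * (D ^ 3 * E.b) ^ 2 =
      D ^ 6 * (4 * E.a ^ 3 + 27 * E.b ^ 2) := by ring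
    rw [e]
    exact mul_ne_zero (pow_ne_zero _ hD.ne) E.disc
  set Z : ℕ → ℂ → ℂ := fun q s => ∏ᶠ χ : DirichletCharacter ℂ q,
    L χ.conductor χ.primitiveCharacter s with hZ
  have hc : ∀ q : ℕ, 1 ≤ q → Nat.Coprime q M → ∀ χ : DirichletCharacter ℂ q,
      1 ≤ χ.conductor ∧ Nat.Coprime χ.conductor M ∧ χ.primitiveCharacter.IsPrimitive := by
    intro q hq hqM χ
    have : NeZero q := ⟨by omega⟩
    exact ⟨Nat.one_le_iff_ne_zero.2 χ.conductor_ne_zero,
      Nat.Coprime.coprime_dvd_left χ.conductor_dvd_level hqM, χ.primitiveCharacter_isPrimitive⟩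
  have hord : ∀ q : ℕ, 1 ≤ q → Nat.Coprime q M → analyticOrderAt (Z q) 1 =
      ((Pool.Agent.TH940.tot G q : ℕ) : ℕ∞) := by
    intro q hq hqM
    have : NeZero q := ⟨by omega⟩
    have e1 : Z q = fun s : ℂ => ∏ χ : DirichletCharacter ℂ q,
        L χ.conductor χ.primitiveCharacter s := by
      funext s
      exact finprod_eq_prod_of_fintype _
    rw [e1, order_prod Finset.univ
      (fun χ : DirichletCharacter ℂ q => L χ.conductor χ.primitiveCharacter) 1
      (fun χ _ => ((hL _ _ (hc q hq hqM χ).1 (hc q hq hqM χ).2.1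
        (hc q hq hqM χ).2.2).1).analyticAt 1)
      (fun χ _ => (hL _ _ (hc q hq hqM χ).1 (hc q hq hqM χ).2.1 (hc q hq hqM χ).2.2).2.1)]
    unfold Pool.Agent.TH940.tot
    rw [finsum_eq_sum_of_fintype]
  have hnat : ∀ q : ℕ, 1 ≤ q → Nat.Coprime q M →
      analyticOrderNatAt (Z q) 1 = Pool.Agent.TH940.tot G q := by
    intro q hq hqM
    unfold analyticOrderNatAt
    rw [hord q hq hqM]
    rfl
  refine ⟨Z, ?_, ?_, ?_⟩
  · intro q hq hqM
    have : NeZero q := ⟨by omega⟩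
    refine ⟨?_, ?_, ?_⟩
    · have e1 : Z q = fun s : ℂ => ∏ χ : DirichletCharacter ℂ q,
          L χ.conductor χ.primitiveCharacter s := by
        funext s
        exact finprod_eq_prod_of_fintype _
      rw [e1]
      have h1 : ∀ χ ∈ (Finset.univ : Finset (DirichletCharacter ℂ q)),
          Differentiable ℂ (L χ.conductor χ.primitiveCharacter) := fun χ _ =>
        (hL _ _ (hc q hq hqM χ).1 (hc q hq hqM χ).2.1 (hc q hq hqM χ).2.2).1
      exact Differentiable.fun_finsetProd h1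
    · rw [hord q hq hqM]
      exact ENat.natCast_ne_top _
    · intro K _ _ _ s hs
      have h2 := W165.CE.hasProd_euler hE (coef_eq E D hD) L (by
        intro q χ h1 h2 h3 s hs
        refine (congrArg (fun g => HasProd g (L q χ s)) (funext fun p => ?_)).mpr
          ((hL q χ h1 h2 h3).2.2 s hs)
        exact eul_eq hD.sq χ s p p.2) q hqM K s hs
      show HasProd _ (∏ᶠ χ : DirichletCharacter ℂ q, L χ.conductor χ.primitiveCharacter s)
      rw [finprod_eq_prod_of_fintype]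
      refine (congrArg (fun g => HasProd g _) (funext fun v => ?_)).mpr h2
      exact factor_eq_lib _ _ _ _ s v
  · intro ε hε
    obtain ⟨C, c, hC, hc', h⟩ := Pool.Agent.Y683.AA.moduli hGH hε
    refine ⟨C, c, hC, hc', fun X hX => ?_⟩
    have h1 : {q : ℕ | 1 ≤ q ∧ q ≤ X ∧ Nat.Coprime q M ∧
        C * (q : ℝ) ^ (3 / 4 + ε) < analyticOrderNatAt (Z q) 1} =
        (((Finset.Icc 1 X).filter (fun q : ℕ => Nat.Coprime q M ∧
        C * (q : ℝ) ^ (3 / 4 + ε) < Pool.Agent.TH940.tot G q) : Finset ℕ) : Set ℕ) := by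
      ext q
      rw [Finset.mem_coe, Finset.mem_filter, Finset.mem_Icc, Set.mem_ofPred_eq]
      constructor
      · rintro ⟨k1, k2, k3, k4⟩
        rw [hnat q k1 k3] at k4
        exact ⟨⟨k1, k2⟩, k3, k4⟩
      · rintro ⟨⟨k1, k2⟩, k3, k4⟩
        rw [← hnat q k1 k3] at k4
        exact ⟨k1, k2, k3, k4⟩
    rw [h1, Set.ncard_coe_finset]
    exact h X hX
  · obtain ⟨C, c, hC, hc', h⟩ := Pool.Agent.X309.DC.avg_tot hM1 hGH
    refine ⟨C, c, hC, hc', fun X hX => ?_⟩
    have h1 : (∑ q ∈ (Finset.Icc 1 X).filter (fun q => Nat.Coprime q M),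
        analyticOrderNatAt (Z q) 1) =
        ∑ q ∈ (Finset.Icc 1 X).filter (fun q => Nat.Coprime q M), Pool.Agent.TH940.tot G q := by
      refine Finset.sum_congr rfl fun q hq => ?_
      rw [Finset.mem_filter, Finset.mem_Icc] at hq
      exact hnat q hq.1.1 hq.2
    rw [h1]
    exact h X hX

/-- **Main theorem.** Let `E : y² = x³ + a x + b` be an elliptic curve over `ℚ` with its newform of
level `N`, and let `D` and the quadratic (or trivial) character `η` of conductor `m` prime to `N` be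
such that `η(p) = (D/p)` for `p ∤ 2D`.  There are functions `Z q`, the Hasse-Weil `L`-functions of
the quadratic twist `E^D : y² = x³ + D² a x + D³ b` over the cyclotomic fields `ℚ(ζ_q)`, with the
following properties.

* For every `q` prime to `N m` and every cyclotomic field `K = ℚ(ζ_q)`, `Z q` is entire, does not vanish
  identically and is for `Re s > 3/2` the Euler product over all primes `v` of `K` of the local
  factors of `E^D`.
* For every `ε > 0` there are `C`, `c > 0` such that for all `X ≥ 1` the number of `q ≤ X` prime to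
  `N m` for which the order of vanishing of `Z q` at `s = 1` is greater than `C q^(3/4 + ε)` is at
  most `C X exp(-c (log X)^(1/3))`.
* There are `C`, `c > 0` such that for all `X ≥ 1` the sum of the orders of vanishing of `Z q` at
  `s = 1` over all `q ≤ X` prime to `N m` is at most `C exp(-c (log X)^(1/3))` times the sum of the
  degrees `φ(q)` of the fields.

The hypothesis that the elliptic curve has a newform (`IsFormOf`, the modularity theorem) holds for
the curve `X_0(14)`, so that for all its quadratic twists by such `D` the result is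
unconditional. -/
theorem result :
    (∀ (E : TwistedCurve) (D : ℤ), IsQuadratic E D →
      ∃ Z : ℕ → ℂ → ℂ,
        (∀ q : ℕ, 1 ≤ q → Nat.Coprime q (E.N * E.m) → Differentiable ℂ (Z q) ∧
          analyticOrderAt (Z q) 1 ≠ ⊤ ∧
          ∀ (K : Type) [Field K] [NumberField K] [IsCyclotomicExtension {q} ℚ K] (s : ℂ),
            3 / 2 < s.re → HasProd (fun v : HeightOneSpectrum (𝓞 K) => twistedFactor E D s v)
              (Z q s)) ∧
        (∀ ε : ℝ, 0 < ε → ∃ C c : ℝ, 0 < C ∧ 0 < c ∧ ∀ X : ℕ, 1 ≤ X →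
          (({q : ℕ | 1 ≤ q ∧ q ≤ X ∧ Nat.Coprime q (E.N * E.m) ∧
            C * (q : ℝ) ^ (3 / 4 + ε) < analyticOrderNatAt (Z q) 1}.ncard : ℕ) : ℝ) ≤
            C * X * Real.exp (-c * (Real.log X) ^ ((1 : ℝ) / 3))) ∧
        ∃ C c : ℝ, 0 < C ∧ 0 < c ∧ ∀ X : ℕ, 1 ≤ X →
          ((∑ q ∈ (Finset.Icc 1 X).filter (fun q => Nat.Coprime q (E.N * E.m)),
            analyticOrderNatAt (Z q) 1 : ℕ) : ℝ) ≤
            C * Real.exp (-c * (Real.log X) ^ ((1 : ℝ) / 3)) *
              ((∑ q ∈ (Finset.Icc 1 X).filter (fun q => Nat.Coprime q (E.N * E.m)),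
                q.totient : ℕ) : ℝ)) ∧
    ∃ f : CuspForm (Gamma0 14 : Subgroup (GL (Fin 2) ℝ)) 2, IsFormOf 5805 (-285714) 14 f :=
  ⟨main, inst⟩

end Pool.Agent.Results.MP_cd906c_nt.AlmostAllCyclotomicFields
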