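import Mathlib
import Pool.Agent.X253.C3.TwL5
import Pool.Agent.X253.CF.Ex

/-!
# The rank part of the conjecture of Birch and Swinnerton-Dyer over the fields `ℚ(ω, ∛l₁, …, ∛l_n)`

`K` is the field of third roots of unity and `E_D : y² + D y = x³`.  Let `D` in `𝓞 K` be cube-free,
`1` modulo `3`, with norm not `1` modulo `9`, such that `E_D(K)` is finite and
`Ш(E_D / K)[3^∞] = 0`; these `D` are exactly the proportion
`∏_{i ≥ 0} (1 - 3^{-(2 i + 1)}) = 0.639...` of all the `D` of the class, ordered by the norm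
(`Pool/Agent/X253/CF`).  Then there is an infinite set `Q` of primes of `𝓞 K` such that for all finite subsets `S`
of `Q` the following holds for the field `F = K(∛l : l ∈ S)`, an abelian extension of `K` with Galois
group `(ℤ/3)^(#S)`: `E_D(F)` is finite, `L(E_D / F, s)` has an entire continuation, and
`L(E_D / F, 1) ≠ 0`; so the order of vanishing and the rank are both `0`.

`L(E_D / F, s)` is the Euler product over the places of `F` that do not divide `3 D ∏ l` (the finitely
many other Euler factors have no zero and no pole at `s = 1`).  It is compared with the product of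
the `L`-functions of the `3 ^ #S` cubic twists of `E_D` over `K`: the splitting of the primes of `K` in
`F` (`X253/C3/TwL2`), the number of points over the residue fields from the Jacobi sums (`TwL1`), the
local identity and the rearrangement of the Euler product (`TwL3`, `TwL4`).  The central values of the
twists are not `0` by the weighted Laplacian criterion and Chebotarev's theorem (`X253/C3/Fam2`, `Law`),
and the points over `F` are sums of points of the twists up to finite index (`Pts3`).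
-/

set_option autoImplicit false

namespace Pool.Agent.Results.MP_cd906c_nt.CubicTowersRankZero

open NumberField IsDedekindDomain
open Pool.Agent.TH841.NF.D (Sha)

/-- The curve `E_D : y² + D y = x³`. -/
def curve {K : Type} [Field K] (D : K) : WeierstrassCurve K := ⟨0, 0, D, 0, 0⟩

section

variable {K : Type} [Field K] [NumberField K]

/-- `D` is cube-free and `1` modulo `3`, and its norm is not `1` modulo `9`. -/
def InClass (D : 𝓞 K) : Prop :=
  (3 : 𝓞 K) ∣ D - 1 ∧ (∀ p : 𝓞 K, Prime p → ¬ p ^ 3 ∣ D) ∧ ¬ (9 : ℤ) ∣ Algebra.norm ℤ D - 1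

/-- `E_D(K)` is finite and the `3`-primary part of `Ш(E_D / K)` is trivial. -/
def FiniteAndTrivial (D : 𝓞 K) : Prop :=
  Finite (curve (D : K)).toAffine.Point ∧ ∀ (n : ℕ) (x : Sha (curve (D : K))), 3 ^ n • x = 0 → x = 0

/-- `F = K(∛l : l ∈ S)`. -/
def Generated (F : Type) [Field F] [NumberField F] [Algebra K F] (S : Finset (𝓞 K)) : Prop :=
  ∃ r : 𝓞 K → F, (∀ l ∈ S, r l ^ 3 = algebraMap K F l) ∧
    ∀ L : Subfield F, (∀ a : K, algebraMap K F a ∈ L) → (∀ l ∈ S, r l ∈ L) → L = ⊤

end

section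

variable {F : Type} [Field F] [NumberField F]

/-- `q_v`, the number of elements of the residue field `k_v`. -/
noncomputable def q (v : HeightOneSpectrum (𝓞 F)) : ℕ := Ideal.absNorm v.asIdeal

/-- `#E(k_v)` with the point at infinity, for `E : y² + a y = x³`. -/
noncomputable def numPoints (a : 𝓞 F) (v : HeightOneSpectrum (𝓞 F)) : ℕ :=
  Nat.card {P : (𝓞 F ⧸ v.asIdeal) × (𝓞 F ⧸ v.asIdeal) //
    P.2 ^ 2 + Ideal.Quotient.mk v.asIdeal a * P.2 = P.1 ^ 3} + 1

/-- The Euler factor `(1 - a_v q_v^{-s} + q_v^{1-2s})⁻¹` of `y² + a y = x³`,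
`a_v = q_v + 1 - #E(k_v)`. -/
noncomputable def factor (a : 𝓞 F) (s : ℂ) (v : HeightOneSpectrum (𝓞 F)) : ℂ :=
  (1 - ((q v : ℂ) + 1 - numPoints a v) * (q v : ℂ) ^ (-s) + (q v : ℂ) ^ (1 - 2 * s))⁻¹

open Classical in
/-- The rank of the group of `F`-rational points. -/
noncomputable def rank (a : F) : ℕ := Module.finrank ℤ (curve a).toAffine.Point

/-- The Euler product of `y² + a y = x³` over the places of `F` which do not divide `M` has an entire
continuation `L` with `L(1) ≠ 0`, and the order of `L` at `1` is the rank. -/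
def RankFormula (M a : 𝓞 F) : Prop :=
  ∃ L : ℂ → ℂ, Differentiable ℂ L ∧
    (∀ z : ℂ, 3 / 2 < z.re → HasProd (fun v : {v : HeightOneSpectrum (𝓞 F) //
      M ∉ v.asIdeal} => factor a z v.1) (L z)) ∧
    L 1 ≠ 0 ∧ analyticOrderAt L 1 = rank (a : F)

end

variable {K : Type} [Field K] [NumberField K]

/-- There is an infinite set `Q` of primes `l = 1` modulo `3` of norm `1` modulo `9` that do not
divide `D`, such that for all finite subsets `S` of `Q` and every extension `F = K(∛l : l ∈ S)` the degree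
is `3 ^ #S`, the group `E_D(F)` is finite, and for the Euler product of `E_D` over the places of `F` not
dividing `3 D ∏ l` the central value is not `0`. -/
def HasTowers (D : 𝓞 K) : Prop :=
  ∃ Q : Set (𝓞 K), Q.Infinite ∧
    (∀ l ∈ Q, Prime l ∧ (3 : 𝓞 K) ∣ l - 1 ∧ (9 : ℤ) ∣ Algebra.norm ℤ l - 1 ∧ ¬ l ∣ D) ∧
    ∀ S : Finset (𝓞 K), (∀ l ∈ S, l ∈ Q) →
      ∀ (F : Type) [Field F] [NumberField F] [Algebra K F], Generated F S →
        Module.finrank K F = 3 ^ S.card ∧
        Finite (curve (algebraMap K F D)).toAffine.Point ∧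
        RankFormula (algebraMap (𝓞 K) (𝓞 F) (3 * D * ∏ l ∈ S, l)) (algebraMap (𝓞 K) (𝓞 F) D)

/-- **The towers.** Every cube-free `D` of the class with `E_D(K)` finite and `Ш(E_D / K)[3^∞] = 0` has
towers of cubic extensions over which the rank of `E_D` and the order of vanishing of its `L`-function at
`1` are `0`; these `D` are exactly
the proportion `0.639...` of the class. -/
theorem result (K : Type) [Field K] [NumberField K] [IsCyclotomicExtension {3} ℚ K] :
    (∀ D : 𝓞 K, InClass D → FiniteAndTrivial D → HasTowers D) ∧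
    (∃ c : ℝ, 0 < c ∧ ∃ X₀ : ℕ, ∀ X : ℕ, X₀ ≤ X →
      c * X ≤ ({D : 𝓞 K | Algebra.norm ℤ D ≤ X ∧ InClass D}.ncard : ℝ)) ∧
    Filter.Tendsto (fun X : ℕ =>
      ({D : 𝓞 K | Algebra.norm ℤ D ≤ X ∧ InClass D ∧ FiniteAndTrivial D}.ncard : ℝ) /
        ({D : 𝓞 K | Algebra.norm ℤ D ≤ X ∧ InClass D}.ncard : ℝ))
      Filter.atTop (nhds (∏' i : ℕ, (1 - (1 / 3 : ℝ) ^ (2 * i + 1)))) ∧
    0.639 < ∏' i : ℕ, (1 - (1 / 3 : ℝ) ^ (2 * i + 1)) ∧
    ∏' i : ℕ, (1 - (1 / 3 : ℝ) ^ (2 * i + 1)) < 0.6391 := by
  refine ⟨fun D hD hT => ?_, Pool.Agent.X253.CF.prop_exact K⟩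
  obtain ⟨Q, h1, h2, h3⟩ := Pool.Agent.X253.C3.towerL K D hD hT
  refine ⟨Q, h1, h2, fun S hS F _ _ _ hF => ?_⟩
  obtain ⟨r, hr, hgen⟩ := hF
  obtain ⟨h4, h5, -, L, h6, h7, h8⟩ := (h3 S hS).2 F r hr hgen
  have h5' : Finite (curve (algebraMap K F D)).toAffine.Point := h5
  refine ⟨h4, h5', L, h6, fun z hz => ?_, h8, ?_⟩
  · refine (h7 z hz).congr_fun fun v => ?_
    unfold factor numPoints q Pool.Agent.X253.C3.EF Pool.Agent.X253.C3.npt
      Pool.Agent.H921R2.TatePole.nm
    push_cast
    rw [add_sub_add_right_eq_sub]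
  · rw [AnalyticAt.analyticOrderAt_eq_zero (h6.analyticAt 1) |>.2 h8]
    classical
    have h9 : Module.rank ℤ (curve (algebraMap K F D)).toAffine.Point = 0 := by
      rw [rank_eq_zero_iff]
      intro x
      exact ⟨(Nat.card (curve (algebraMap K F D)).toAffine.Point : ℤ),
        by exact_mod_cast Nat.card_pos.ne', by
          rw [natCast_zsmul]
          exact card_nsmul_eq_zero'⟩
    have h10 : rank ((algebraMap (𝓞 K) (𝓞 F) D : 𝓞 F) : F) = 0 := by
      have e : ((algebraMap (𝓞 K) (𝓞 F) D : 𝓞 F) : F) = algebraMap K F D := rfl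
      rw [e]
      unfold rank
      rw [Module.finrank]
      simp only [h9, map_zero]
    rw [h10]
    rfl

end Pool.Agent.Results.MP_cd906c_nt.CubicTowersRankZero
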