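import Mathlib
import Pool.Agent.X253.RK.A6

/-!
# The rank part of the conjecture of Birch and Swinnerton-Dyer over the fields `ℚ(∛m₁, …, ∛m_n)`

`E_D : y² + D y = x³` (the curve `x³ + y³ = D`), where `D` is squarefree, prime to `3`, not `±1` modulo `9`,
and exactly one prime `q ≡ 2` modulo `3` divides `D`; `c = ∏ (1 - 3^{-i}) = 0.5601...`.

The number fields are `K = ℚ(∛m : m ∈ S)`, for finite sets `S` of positive integers which are
independent modulo cubes; `K` has degree `3 ^ #S` and is not a Galois extension of `ℚ` (`S ≠ ∅`).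

If all prime factors of the elements of `S` are `1` modulo `9`, then for at least the proportion
`c ^ (3 ^ #S)` of the `D` prime to `S` (more than `17 %` for a pure cubic field `ℚ(∛m)`) the group
`E_D(K)` is finite, `L(E_D / K, s)` has an entire continuation, and `L(E_D / K, 1) ≠ 0`; so the order of
vanishing and the rank are both `0`.

The proof (`X253/RK/A1`-`A6`): `F = K(ω)` is abelian over `ℚ(ω)`.  The places of `K` over a prime
`p ≡ 1` modulo `3`, `p = z z̄`, correspond to the places of `F` over `z`, and for `p ≡ 2` modulo `3` the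
residue fields and the numbers of points are determined by the decomposition in `F / K`
(`A2`-`A4`); so `L(E_D / K, s)` is the product of the `L`-functions over `ℚ` of the `3 ^ #S` cubic twists of
`E_D` (`A5`), whose central values are not `0` by the weighted Laplacian criterion.  The criteria for the
twists are asymptotically independent (`X253/JC`).
-/

set_option autoImplicit false

namespace Pool.Agent.Results.MP_cd906c_nt.RadicalCubicFields

open NumberField IsDedekindDomain Filter

/-- The curve `E_D : y² + D y = x³`. -/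
def curve {K : Type} [Field K] (D : K) : WeierstrassCurve K := ⟨0, 0, D, 0, 0⟩

/-- `D` is cube-free, prime to `3`, not `±1` modulo `9`, and exactly one prime `q ≡ 2` modulo `3`
divides `D`. -/
def InClass (D : ℕ) : Prop :=
  (D ≠ 0 ∧ ¬ 3 ∣ D ∧ ∀ p : ℕ, p.Prime → ¬ p ^ 3 ∣ D) ∧ D % 9 ≠ 1 ∧ D % 9 ≠ 8 ∧
    ∃ q : ℕ, q.Prime ∧ q % 3 = 2 ∧ q ∣ D ∧ ∀ p : ℕ, p.Prime → p ∣ D → p ≠ q → p % 3 = 1

open scoped Classical in
/-- The squarefree `D ≤ X` of the class that are prime to `m`. -/
noncomputable def family (m : ℕ) (X : ℕ) : Finset ℕ :=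
  (Finset.Icc 1 X).filter fun D => Squarefree D ∧ InClass D ∧ D.Coprime m

open scoped Classical in
/-- The lower proportion of the `D` with `P D` among the squarefree `D` of the class that are prime to
`m` is at least `r`. -/
def AtLeast (m : ℕ) (r : ℝ) (P : ℕ → Prop) : Prop :=
  ∀ b : ℝ, b < r → ∀ᶠ X : ℕ in atTop,
    b * ((family m X).card : ℝ) ≤ (((family m X).filter P).card : ℝ)

/-- The constant `∏ (1 - 3^{-i}) = 0.5601...`. -/
noncomputable def c : ℝ := ∏' i : ℕ, (1 - (1 / 3 : ℝ) ^ (i + 1))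

/-- The elements of `S` are positive, and a product of powers of them is a cube only if all the
exponents are divisible by `3`. -/
def Independent (S : Finset ℕ) : Prop :=
  (∀ m ∈ S, m ≠ 0) ∧ ∀ e : ℕ → ℕ, (∃ n : ℕ, n ^ 3 = ∏ m ∈ S, m ^ e m) → ∀ m ∈ S, 3 ∣ e m

section

variable {K : Type} [Field K] [NumberField K]

/-- `q_v`, the number of elements of the residue field `k_v`. -/
noncomputable def q (v : HeightOneSpectrum (𝓞 K)) : ℕ := Ideal.absNorm v.asIdeal

/-- `#E(k_v)` with the point at infinity, for `E : y² + a y = x³`. -/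
noncomputable def numPoints (a : 𝓞 K) (v : HeightOneSpectrum (𝓞 K)) : ℕ :=
  Nat.card {P : (𝓞 K ⧸ v.asIdeal) × (𝓞 K ⧸ v.asIdeal) //
    P.2 ^ 2 + Ideal.Quotient.mk v.asIdeal a * P.2 = P.1 ^ 3} + 1

/-- The Euler factor `(1 - a_v q_v^{-s} + q_v^{1-2s})⁻¹` of `y² + a y = x³`,
`a_v = q_v + 1 - #E(k_v)`. -/
noncomputable def factor (a : 𝓞 K) (s : ℂ) (v : HeightOneSpectrum (𝓞 K)) : ℂ :=
  (1 - ((q v : ℂ) + 1 - numPoints a v) * (q v : ℂ) ^ (-s) + (q v : ℂ) ^ (1 - 2 * s))⁻¹

open Classical in
/-- The rank of the group of `K`-rational points. -/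
noncomputable def rank (a : K) : ℕ := Module.finrank ℤ (curve a).toAffine.Point

/-- The Euler product of `y² + a y = x³` over the places of `K` which do not divide `M` has an entire
continuation `L` with `L(1) ≠ 0`, and the order of `L` at `1` is the rank. -/
def RankFormula (M a : 𝓞 K) : Prop :=
  ∃ L : ℂ → ℂ, Differentiable ℂ L ∧
    (∀ z : ℂ, 3 / 2 < z.re → HasProd (fun v : {v : HeightOneSpectrum (𝓞 K) //
      M ∉ v.asIdeal} => factor a z v.1) (L z)) ∧
    L 1 ≠ 0 ∧ analyticOrderAt L 1 = rank (a : K)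

end

/-- `K = ℚ(∛m : m ∈ S)`. -/
def Generated (K : Type) [Field K] [NumberField K] (S : Finset ℕ) : Prop :=
  ∃ r : ℕ → K, (∀ m ∈ S, r m ^ 3 = (m : K)) ∧ ∀ L : Subfield K, (∀ m ∈ S, r m ∈ L) → L = ⊤

/-- For all number fields `K = ℚ(∛m : m ∈ S)` the degree is `3 ^ #S`, the group `E_D(K)` is finite, and
the order at `1` of the Euler product of `E_D` over the places of `K` that do not divide
`3 D ∏ m` is the rank, and both are `0`. -/
def HasRankFormula (S : Finset ℕ) (D : ℕ) : Prop :=
  ∀ (K : Type) [Field K] [NumberField K], Generated K S →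
    Module.finrank ℚ K = 3 ^ S.card ∧ Finite (curve (D : K)).toAffine.Point ∧
    RankFormula ((3 * D * ∏ m ∈ S, m : ℕ) : 𝓞 K) (D : 𝓞 K)

/-- **Fields generated by cube roots.** For every finite set `S` of positive integers, independent modulo
cubes and with all prime factors `1` modulo `9`, at least the proportion `c ^ (3 ^ #S)` of the squarefree `D`
of the class prime to `S` have finite `E_D(K)` and nonzero `L(E_D / K, 1)` over `K = ℚ(∛m : m ∈ S)`. -/
theorem result (S : Finset ℕ) (hS : Independent S)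
    (h9 : ∀ m ∈ S, ∀ p : ℕ, p.Prime → p ∣ m → p % 9 = 1) :
    AtLeast (∏ m ∈ S, m) (c ^ (3 ^ S.card)) (HasRankFormula S) := by
  classical
  -- one curve
  have hind : ∀ S : Finset ℕ, Independent S → Pool.Agent.X253.RK.Ind (fun i : S => (i : ℕ)) := by
    intro S hS e n hn i
    obtain ⟨e', he'⟩ : ∃ e' : ℕ → ℕ, ∀ i : S, e' i = (e i).val :=
      ⟨fun m => if h : m ∈ S then (e ⟨m, h⟩).val else 0, fun i => dif_pos i.2⟩
    have h1 := hS.2 e' ⟨n, by
      rw [hn, ← Finset.prod_coe_sort S (fun m => m ^ e' m)]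
      exact Finset.prod_congr rfl fun i _ => by rw [he']⟩ i.1 i.2
    rw [he'] at h1
    have h2 : ∀ a : ZMod 3, 3 ∣ a.val → a = 0 := by decide
    exact h2 _ h1
  have hone : ∀ (S : Finset ℕ) (D : ℕ), Independent S →
      (∀ m ∈ S, ∀ p : ℕ, p.Prime → p ∣ m → p % 9 = 1) → InClass D →
      (∀ t ∈ Pool.Agent.X253.RK.TT S, ¬ t ∣ D) →
      Pool.Agent.X253.JC.GA (Pool.Agent.X253.RK.TT S)
        (Finset.univ.image (Pool.Agent.X253.RK.aT S)) D → HasRankFormula S D := by
    intro S D hS h9 hD hTD hG K _ _ hK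
    obtain ⟨r, hr, hgen⟩ := hK
    obtain ⟨h4, h5, L, h6, h8, h7⟩ := Pool.Agent.X253.RK.mainR hS.1 h9 (hind S hS) hD hTD hG K
      (fun i => r i.1) (fun i => hr i.1 i.2) (fun L h => hgen L fun m hm => h ⟨m, hm⟩)
    have h5' : Finite (curve (D : K)).toAffine.Point := h5
    refine ⟨h4, h5', L, h6, fun z hz => ?_, h8, ?_⟩
    · refine (h7 z hz).congr_fun fun v => ?_
      unfold factor numPoints q Pool.Agent.X253.C3.EF Pool.Agent.X253.C3.npt
        Pool.Agent.H921R2.TatePole.nm
      push_cast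
      rw [add_sub_add_right_eq_sub]
    · rw [AnalyticAt.analyticOrderAt_eq_zero (h6.analyticAt 1) |>.2 h8]
      have h9 : Module.rank ℤ (curve (D : K)).toAffine.Point = 0 := by
        rw [rank_eq_zero_iff]
        intro x
        exact ⟨(Nat.card (curve (D : K)).toAffine.Point : ℤ),
          by exact_mod_cast Nat.card_pos.ne', by
            rw [natCast_zsmul]
            exact card_nsmul_eq_zero'⟩
      have h10 : rank (((D : ℕ) : 𝓞 K) : K) = 0 := by
        have e : (((D : ℕ) : 𝓞 K) : K) = (D : K) := map_natCast (algebraMap (𝓞 K) K) _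
        rw [e]
        unfold rank
        rw [Module.finrank]
        simp only [h9, map_zero]
      rw [h10]
      rfl
  -- the proportions
  have hprop : ∀ (T : Finset ℕ) (hT : ∀ t ∈ T, t.Prime ∧ t % 9 = 1) (m : ℕ)
      (hm : ∀ D : ℕ, D ≠ 0 → ((∀ t ∈ T, ¬ t ∣ D) ↔ D.Coprime m)) (A : Finset (T → Fin 3))
      (P : ℕ → Prop),
      (∀ D, InClass D → (∀ t ∈ T, ¬ t ∣ D) → Pool.Agent.X253.JC.GA T A D → P D) →
      AtLeast m (c ^ A.card) P := by
    intro T hT m hm A P hP b hb
    have hfamily : ∀ X, family m X = Pool.Agent.X253.JC.BB T X := fun X => by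
      unfold family Pool.Agent.X253.JC.BB
      refine Finset.filter_congr fun D hD => ?_
      have hD0 : D ≠ 0 := by
        rw [Finset.mem_Icc] at hD
        omega
      rw [← hm D hD0]
      rfl
    have hj := Pool.Agent.X253.JC.joint hT A
    have hev := (tendsto_order.1 hj).1 b hb
    filter_upwards [hev] with X hX
    have hsub : (Pool.Agent.X253.JC.BB T X).filter (Pool.Agent.X253.JC.GA T A) ⊆
        (family m X).filter P := by
      intro D hD
      rw [Finset.mem_filter] at hD ⊢
      refine ⟨by rw [hfamily]; exact hD.1, ?_⟩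
      have h1 := hD.1
      unfold Pool.Agent.X253.JC.BB at h1
      rw [Finset.mem_filter] at h1
      exact hP D h1.2.2.1 h1.2.2.2 hD.2
    have hcard := Finset.card_le_card hsub
    have hcard' : (((Pool.Agent.X253.JC.BB T X).filter (Pool.Agent.X253.JC.GA T A)).card : ℝ) ≤
        (((family m X).filter P).card : ℝ) := by exact_mod_cast hcard
    refine le_trans ?_ hcard'
    rw [hfamily]
    rcases (Nat.cast_nonneg (α := ℝ) (Pool.Agent.X253.JC.BB T X).card).eq_or_lt with h0 | h0
    · rw [← h0, mul_zero]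
      exact Nat.cast_nonneg _
    · exact ((lt_div_iff₀ h0).1 hX).le
  have hT : ∀ t ∈ Pool.Agent.X253.RK.TT S, t.Prime ∧ t % 9 = 1 := by
    intro t ht
    have hp := Nat.prime_of_mem_primeFactors ht
    obtain ⟨m, hm, hmt⟩ := (hp.prime.dvd_finsetProd_iff _).1 (Nat.dvd_of_mem_primeFactors ht)
    exact ⟨hp, h9 m hm t hp hmt⟩
  have hP0 : ∏ m ∈ S, m ≠ 0 := Finset.prod_ne_zero_iff.2 hS.1
  have hcard : (Finset.univ.image (Pool.Agent.X253.RK.aT S)).card = 3 ^ S.card := by
    rw [Finset.card_image_of_injective _ (Pool.Agent.X253.RK.aT_inj hS.1 (hind S hS)),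
      Finset.card_univ, Fintype.card_fun, Fintype.card_fin, Fintype.card_coe]
  rw [← hcard]
  refine hprop _ hT _ (fun D hD0 => ?_) _ _ fun D hD hTD hG => hone S D hS h9 hD hTD hG
  constructor
  · intro h
    refine Nat.coprime_of_dvd fun p hp hpD hpm => ?_
    exact h p (Nat.mem_primeFactors.2 ⟨hp, hpm, hP0⟩) hpD
  · intro h t ht htD
    have hp := Nat.prime_of_mem_primeFactors ht
    have h1 := Nat.dvd_gcd htD (Nat.dvd_of_mem_primeFactors ht)
    rw [h] at h1
    exact hp.one_lt.ne' (Nat.dvd_one.1 h1)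

end Pool.Agent.Results.MP_cd906c_nt.RadicalCubicFields
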